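import Mathlib
import Pool.Agent.Lib_MP_0e1b7e_an.Extremal

/-!
# Sharp coefficient bounds in the Bazilevic class `B₁(α)`, `0 < α < 1`
-/

namespace Pool.Agent.Results.MP_0e1b7e_an.BazilevicCoefficients

open Metric Pool.Agent.BazB1

/-- The `n`-th Taylor coefficient of `f` at the origin. -/
noncomputable def coef (f : ℂ → ℂ) (n : ℕ) : ℂ := iteratedDeriv n f 0 / (n.factorial : ℂ)

/-- `L` is the analytic branch of `log (f z / z)` on the unit disc with `L 0 = 0`. -/
structure IsLogBranch (f L : ℂ → ℂ) : Prop where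
  analytic : DifferentiableOn ℂ L (ball 0 1)
  map_zero : L 0 = 0
  eq_mul_exp : ∀ z ∈ ball (0 : ℂ) 1, f z = z * Complex.exp (L z)

/-- The class `B₁(α)`: analytic on the unit disc, `f 0 = 0`, `f' 0 = 1`, `f z / z` has no zero
(it has an analytic logarithm `L` with `L 0 = 0`), and `(f z / z) ^ (α - 1) * f' z`, that is
`exp ((α - 1) L z) * f' z`, has positive real part on the disc. -/
structure ClassB1 (α : ℝ) (f : ℂ → ℂ) : Prop where
  analytic : DifferentiableOn ℂ f (ball 0 1)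
  map_zero : f 0 = 0
  deriv_zero : deriv f 0 = 1
  re_pos : ∃ L : ℂ → ℂ, IsLogBranch f L ∧
    ∀ z ∈ ball (0 : ℂ) 1, 0 < (Complex.exp ((α - 1) * L z) * deriv f z).re

/-- The function `g_α(z) = z (1 + ∑_{n ≥ 1} 2 α / (n + α) z ^ n) ^ (1 / α)` (principal power). -/
noncomputable def gFun (α : ℝ) (z : ℂ) : ℂ :=
  z * (1 + ∑' n : ℕ, (2 * α / (n + 1 + α) : ℂ) * z ^ (n + 1)) ^ (1 / α : ℂ)

theorem gFun_eq {α : ℝ} (hα : 0 < α) {z : ℂ} (hz : z ∈ ball (0 : ℂ) 1) :
    gFun α z = z * Complex.exp (LA α z) := by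
  have h1 : GA α z ≠ 0 := by
    intro h
    have := re_GA_pos hα hz
    rw [h, Complex.zero_re] at this
    exact lt_irrefl _ this
  have h2 : gFun α z = z * (GA α z) ^ (1 / α : ℂ) := rfl
  rw [h2, Complex.cpow_def_of_ne_zero h1]
  rfl

theorem gFun_branch {α : ℝ} (hα : 0 < α) : IsLogBranch (gFun α) (LA α) :=
  ⟨differentiableOn_LA hα, LA_zero α, fun _ hz => gFun_eq hα hz⟩

theorem differentiableOn_of_branch {f L : ℂ → ℂ} (h : IsLogBranch f L) :
    DifferentiableOn ℂ f (ball 0 1) := by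
  have h1 : DifferentiableOn ℂ (fun z => z * Complex.exp (L z)) (ball 0 1) :=
    differentiableOn_id''.mul h.analytic.cexp
  exact h1.congr h.eq_mul_exp

theorem deriv_zero_of_branch {f L : ℂ → ℂ} (h : IsLogBranch f L) : deriv f 0 = 1 := by
  have h0 : (0 : ℂ) ∈ ball (0 : ℂ) 1 := mem_ball_self one_pos
  have h1 := (h.analytic.differentiableAt (isOpen_ball.mem_nhds h0)).hasDerivAt
  have h3 : f =ᶠ[nhds 0] fun z => z * Complex.exp (L z) := by
    filter_upwards [isOpen_ball.mem_nhds h0] with w hw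
    exact h.eq_mul_exp w hw
  rw [h3.deriv_eq, ((hasDerivAt_id' (0 : ℂ)).fun_mul h1.cexp).deriv, h.map_zero]
  simp

theorem gFun_ode {α : ℝ} (hα : 0 < α) {z : ℂ} (hz : z ∈ ball (0 : ℂ) 1) :
    Complex.exp (((α : ℂ) - 1) * LA α z) * deriv (gFun α) z = (1 + z) / (1 - z) := by
  have hα' : (α : ℂ) ≠ 0 := by exact_mod_cast hα.ne'
  rw [exp_mul_deriv (differentiableOn_LA hα) (fun z hz => gFun_eq hα hz) hα' hz, exp_mul_LA hα hz]
  have h1 : deriv (fun z => Complex.exp ((α : ℂ) * LA α z)) z = deriv (GA α) z := by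
    apply Filter.EventuallyEq.deriv_eq
    filter_upwards [isOpen_ball.mem_nhds hz] with w hw
    exact exp_mul_LA hα hw
  rw [h1]
  exact GA_ode hα hz

theorem classB1_gFun {α : ℝ} (hα : 0 < α) : ClassB1 α (gFun α) := by
  refine ⟨differentiableOn_of_branch (gFun_branch hα), by simp [gFun],
    deriv_zero_of_branch (gFun_branch hα), LA α, gFun_branch hα, fun z hz => ?_⟩
  rw [gFun_ode hα hz]
  exact re_cayley_pos hz

theorem coef_gFun {α : ℝ} (hα : 0 < α) (n : ℕ) :
    coef (gFun α) (n + 1) =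
      ((PowerSeries.coeff n (pw (1 / α) (GR (mB α))) : ℝ) : ℂ) := by
  have h1 : coef (gFun α) (n + 1) = tc (gFun α) (n + 1) := rfl
  rw [h1, tc_succ_eq (differentiableOn_LA hα) (LA_zero α) (fun z hz => gFun_eq hα hz) hα n]
  have h2 : HH (mB α) (mom (fun z => Complex.exp (((α : ℂ) - 1) * LA α z) *
      deriv (gFun α) z) 1) = PowerSeries.map Complex.ofRealHom (GR (mB α)) := by
    ext k
    rw [PowerSeries.coeff_map]
    rcases k with _ | k
    · rw [PowerSeries.coeff_zero_eq_constantCoeff_apply,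
        PowerSeries.coeff_zero_eq_constantCoeff_apply,
        constantCoeff_HH (mB_zero hα) (by simp [mom]), constantCoeff_GR (mB_zero hα), map_one]
    · have h3 : tc (fun z => Complex.exp (((α : ℂ) - 1) * LA α z) * deriv (gFun α) z) (k + 1) =
          2 := by
        rw [← tc_cayley k]
        have h4 := TT_congr (f := fun z => Complex.exp (((α : ℂ) - 1) * LA α z) *
          deriv (gFun α) z) (g := fun z => (1 + z) / (1 - z)) (fun z hz => gFun_ode hα hz)
        have h5 := congrArg (PowerSeries.coeff (k + 1)) h4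
        rw [TT, TT, PowerSeries.coeff_mk, PowerSeries.coeff_mk] at h5
        exact h5
      rw [coeff_HH_succ, coeff_GR_succ, mom, if_neg (Nat.succ_ne_zero k), h3]
      simp
  rw [h2]
  have h6 := pw_map Complex.ofRealHom (1 / α) (constantCoeff_GR (mB_zero hα))
  have h7 : Complex.ofRealHom (1 / α) = ((1 / α : ℝ) : ℂ) := rfl
  rw [h7] at h6
  rw [h6, PowerSeries.coeff_map]
  rfl

/-- **Coefficient problem for `B₁(α)`, `0 < α < 1`.** The function `g_α` lies in `B₁(α)` and solves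
`g' (g / z) ^ (α - 1) = (1 + z) / (1 - z)`; its coefficients are real and nonnegative; and
`|a_n| ≤ b_n(α)` for every `f` in `B₁(α)` and every `n ≥ 2`. -/
theorem result (α : ℝ) (hα0 : 0 < α) (hα1 : α < 1) :
    ClassB1 α (gFun α) ∧
    (∃ L : ℂ → ℂ, IsLogBranch (gFun α) L ∧ ∀ z ∈ ball (0 : ℂ) 1,
      Complex.exp ((α - 1) * L z) * deriv (gFun α) z = (1 + z) / (1 - z)) ∧
    (∀ n : ℕ, (coef (gFun α) n).im = 0 ∧ 0 ≤ (coef (gFun α) n).re) ∧
    ∀ f : ℂ → ℂ, ClassB1 α f → ∀ n : ℕ, 2 ≤ n → ‖coef f n‖ ≤ (coef (gFun α) n).re := by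
  obtain ⟨κ, hκ, hm⟩ := exists_kappa hα0
  have hm0 := mB_zero hα0
  have hp : 1 ≤ 1 / α := by
    rw [le_div_iff₀ hα0]
    linarith
  refine ⟨classB1_gFun hα0, ⟨LA α, gFun_branch hα0, fun z hz => gFun_ode hα0 hz⟩, ?_, ?_⟩
  · intro n
    rcases n with _ | n
    · have : coef (gFun α) 0 = 0 := by simp [coef, gFun]
      rw [this]
      simp
    · rw [coef_gFun hα0]
      exact ⟨Complex.ofReal_im _, by
        rw [Complex.ofReal_re]
        exact coeff_pw_GR_nonneg hκ hm0 hm (by linarith) n⟩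
  · intro f hf n hn
    obtain ⟨L, hL, hpos⟩ := hf.re_pos
    obtain ⟨k, rfl⟩ : ∃ k, n = k + 1 := ⟨n - 1, by omega⟩
    rw [coef_gFun hα0, Complex.ofReal_re]
    have h1 : coef f (k + 1) = tc f (k + 1) := rfl
    rw [h1, tc_succ_eq hL.analytic hL.map_zero hL.eq_mul_exp hα0 k]
    refine maj_mom hκ hm0 hm ?_ ?_ ?_ hp k
    · have hd : DifferentiableOn ℂ (fun z => Complex.exp (((α : ℂ) - 1) * L z)) (ball 0 1) :=
        differentiableOn_exp hL.analytic _
      exact hd.mul (differentiableOn_deriv hf.analytic)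
    · simp [hL.map_zero, hf.deriv_zero]
    · exact hpos

end Pool.Agent.Results.MP_0e1b7e_an.BazilevicCoefficients
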